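import Mathlib

/-!
Coarse embeddings of countable spaces with an integer valued metric by finitely supported
integer valued functions (a coarse form of Aharoni's theorem).
-/
set_option autoImplicit false
open Finset

namespace Pool.Agent.Y737.HE

variable {M : Type} (d : M → M → ℕ) (y : ℕ → M)

/-- The coordinate functions. -/
def co (s j : ℕ) (x : M) : ℕ :=
  2 ^ (s + 1) - max (d x (y j)) ((range j).sup (fun l => 3 * 2 ^ s - d x (y l)))

lemma co_lip (hsymm : ∀ a b, d a b = d b a) (htri : ∀ a b c, d a c ≤ d a b + d b c)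
    (s j : ℕ) (x x' : M) : co d y s j x ≤ co d y s j x' + d x x' := by
  unfold co
  have h1 : d x' (y j) ≤ d x (y j) + d x x' := by
    have := htri x' x (y j); have := hsymm x x'; omega
  have h2 : (range j).sup (fun l => 3 * 2 ^ s - d x' (y l)) ≤
      (range j).sup (fun l => 3 * 2 ^ s - d x (y l)) + d x x' := by
    refine Finset.sup_le fun l hl => ?_
    have h3 : 3 * 2 ^ s - d x (y l) ≤ (range j).sup (fun l => 3 * 2 ^ s - d x (y l)) :=
      Finset.le_sup (f := fun l => 3 * 2 ^ s - d x (y l)) hl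
    have h4 := htri x x' (y l)
    omega
  omega

lemma co_support (hself : ∀ a, d a a = 0) (s j j0 : ℕ) (x : M) (hj0 : y j0 = x) (hj : j0 < j) :
    co d y s j x = 0 := by
  unfold co
  have h3 : 3 * 2 ^ s - d x (y j0) ≤ (range j).sup (fun l => 3 * 2 ^ s - d x (y l)) :=
    Finset.le_sup (f := fun l => 3 * 2 ^ s - d x (y l)) (mem_range.2 hj)
  rw [hj0, hself] at h3
  have : 2 ^ (s + 1) = 2 * 2 ^ s := by rw [pow_succ]; ring
  omega

lemma co_sep (hself : ∀ a, d a a = 0) (hsymm : ∀ a b, d a b = d b a)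
    (htri : ∀ a b c, d a c ≤ d a b + d b c) (hy : Function.Surjective y) (s : ℕ) (x x' : M)
    (hx : 2 ^ (s + 2) ≤ d x x') :
    ∃ j, 2 ^ s ≤ 2 * co d y s j x ∧ co d y s j x' = 0 := by
  classical
  have e1 : 2 ^ (s + 1) = 2 * 2 ^ s := by rw [pow_succ]; ring
  have e2 : 2 ^ (s + 2) = 4 * 2 ^ s := by rw [pow_add]; ring
  have hpos : 0 < 2 ^ s := by positivity
  have hex : ∃ j, 2 * d x (y j) ≤ 3 * 2 ^ s := by
    obtain ⟨j, hj⟩ := hy x
    exact ⟨j, by rw [hj, hself]; omega⟩
  refine ⟨Nat.find hex, ?_, ?_⟩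
  · have h1 := Nat.find_spec hex
    have h2 : 2 * (range (Nat.find hex)).sup (fun l => 3 * 2 ^ s - d x (y l)) ≤ 3 * 2 ^ s := by
      have : (range (Nat.find hex)).sup (fun l => 3 * 2 ^ s - d x (y l)) ≤ 3 * 2 ^ s / 2 := by
        refine Finset.sup_le fun l hl => ?_
        have h3 : ¬ 2 * d x (y l) ≤ 3 * 2 ^ s := Nat.find_min hex (mem_range.1 hl)
        omega
      omega
    unfold co
    omega
  · have h1 := Nat.find_spec hex
    unfold co
    have h4 := htri x (y (Nat.find hex)) x'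
    have h5 := hsymm x' (y (Nat.find hex))
    omega

end Pool.Agent.Y737.HE
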