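import Mathlib
import Pool.Agent.W696.TS.Embed

/-!
Upper `c₀`-estimates with an arbitrary constant.
-/
set_option autoImplicit false
open scoped ENNReal
open Finset Filter Topology
open Pool.Agent.W696.TS

namespace Pool.Agent.Y737.HE

/-- norms on nonnegative sequences with an upper `c₀`-estimate with constant `C` for at most `k`
successive pieces supported beyond `k` -/
structure UpC (C : ℝ≥0∞) (nz : (ℕ → ℝ≥0∞) → ℝ≥0∞) : Prop where
  mono : ∀ {a b : ℕ → ℝ≥0∞}, a ≤ b → nz a ≤ nz b
  add : ∀ a b : ℕ → ℝ≥0∞, nz (fun n => a n + b n) ≤ nz a + nz b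
  single_le : ∀ n c, nz (Pi.single n c) ≤ c
  succ : ∀ (c : ℕ → ℕ), Monotone c → ∀ (S : Finset ℕ) (a : ℕ → ℝ≥0∞) (B : ℝ≥0∞),
    (∀ n, a n ≠ 0 → c n ∈ S ∧ S.card ≤ n + 1) →
    (∀ s ∈ S, nz (fun n => if c n = s then a n else 0) ≤ B) → nz a ≤ C * B

lemma UpC.of_upNorm {nz : (ℕ → ℝ≥0∞) → ℝ≥0∞} (h : UpNorm nz) : UpC 2 nz :=
  ⟨h.mono, h.add, h.single_le, h.succ⟩

variable {C : ℝ≥0∞} {nz : (ℕ → ℝ≥0∞) → ℝ≥0∞}

lemma up_level (h : UpC C nz) (k p : ℕ) (x : ℕ → ℝ≥0∞) (B : ℝ≥0∞)
    (hx : ∀ q, x q ≠ 0 → lev k q = p ∧ Inr k q) (hB : ∀ q, x q ≤ B) : nz x ≤ C * B := by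
  refine h.succ id monotone_id (Finset.Ico (st k p) (st k p + Fintype.card (CC k p))) x B ?_ ?_
  · intro q hq
    obtain ⟨h1, h2, h3⟩ := hx q hq
    rw [h1] at h2 h3
    refine ⟨?_, ?_⟩
    · simp only [id]
      rw [Finset.mem_Ico]
      omega
    · rw [Nat.card_Ico]
      have := card_le_st k p
      omega
  · intro s _
    have e : (fun n => if id n = s then x n else 0) = Pi.single s (x s) := by
      funext n
      by_cases hn : n = s
      · subst hn; simp
      · simp [hn]
    rw [e]
    exact (h.single_le s (x s)).trans (hB s)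

lemma up_levels (h : UpC C nz) (k : ℕ) (P : Finset ℕ) (hP : P.card ≤ k)
    (x : ℕ → ℝ≥0∞) (B : ℝ≥0∞)
    (hx : ∀ q, x q ≠ 0 → lev k q ∈ P ∧ Inr k q) (hB : ∀ q, x q ≤ B) : nz x ≤ C * C * B := by
  have h1 : nz x ≤ C * (C * B) := by
    refine h.succ (lev k) (lev_mono k) P x (C * B) ?_ ?_
    · intro q hq
      obtain ⟨h1, h2, h3⟩ := hx q hq
      refine ⟨h1, ?_⟩
      have := le_st k (lev k q)
      omega
    · intro s _
      refine up_level h k s _ B ?_ ?_
      · intro q hq
        by_cases hs : lev k q = s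
        · simp only [hs, if_true] at hq
          exact ⟨hs, (hx q hq).2⟩
        · simp [hs] at hq
      · intro q
        split_ifs
        · exact hB q
        · exact bot_le
  rwa [← mul_assoc] at h1

lemma up_zero (h : UpC C nz) : nz (fun _ => 0) = 0 := by
  have h1 := h.single_le 0 0
  rw [Pi.single_zero] at h1
  exact le_antisymm h1 bot_le

lemma up_sum (h : UpC C nz) {ι : Type*} (s : Finset ι)
    (a : ι → ℕ → ℝ≥0∞) : nz (fun n => ∑ j ∈ s, a j n) ≤ ∑ j ∈ s, nz (a j) := by
  classical
  induction s using Finset.induction_on with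
  | empty =>
    simp only [Finset.sum_empty]
    rw [up_zero h]
  | insert j s hj ih =>
    simp only [Finset.sum_insert hj]
    exact (h.add _ _).trans (by gcongr)

lemma up_one (h : UpC C nz) (k p : ℕ) [DecidablePred fun q => lev k q = p ∧ Inr k q] :
    nz (fun q => if lev k q = p ∧ Inr k q then (1 : ℝ≥0∞) else 0) ≤ C := by
  have := up_level h k p (fun q => if lev k q = p ∧ Inr k q then (1 : ℝ≥0∞) else 0) 1 ?_ ?_
  · rwa [mul_one] at this
  · intro q hq
    by_contra hcon
    rw [if_neg hcon] at hq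
    exact hq rfl
  · intro q
    split_ifs
    · exact le_rfl
    · exact bot_le

open Classical in
lemma up_block_le (h : UpC C nz) (k : ℕ) (ν : ℕ → ℕ) (β : ℕ → ℝ)
    (hβ : ∀ κ, 0 ≤ β κ) (κ : ℕ) (m n : Fin k → ℕ) :
    nz (fun q => ‖bfun k ν β κ m q - bfun k ν β κ n q‖ₑ) ≤
      C * C * ENNReal.ofReal (β κ * ((univ.filter fun j : Fin k => m j ≠ n j).card : ℝ)) +
      ∑ i ∈ univ.filter (fun i : Fin k => m i ≠ n i), (if ν i = κ then 2 * C else 0) := by
  refine (h.mono fun q => bfun_sub_le k ν β hβ κ m n q).trans ((h.add _ _).trans ?_)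
  refine add_le_add ?_ ?_
  · refine up_levels h k (univ.image m) (card_image_le.trans (by simp)) _ _ ?_ ?_
    · intro q hq
      by_contra hcon
      rw [if_neg hcon] at hq
      exact hq rfl
    · intro q
      split_ifs
      · exact le_rfl
      · exact bot_le
  · refine (up_sum h _ _).trans (Finset.sum_le_sum fun i _ => ?_)
    by_cases hν : ν i = κ
    · simp only [hν, if_true]
      refine (h.add _ _).trans ?_
      calc _ ≤ C + C := add_le_add (up_one h k _) (up_one h k _)
        _ = 2 * C := (two_mul C).symm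
    · simp only [hν, if_false]
      rw [up_zero h]

open Classical in
lemma up_single_block_le (h : UpC C nz) (k : ℕ) (ν : ℕ → ℕ) (β : ℕ → ℝ)
    (hβ : ∀ κ, 0 ≤ β κ) (κ : ℕ) (m : Fin k → ℕ) :
    nz (fun q => ‖bfun k ν β κ m q‖ₑ) ≤ ∑ i : Fin k, (if ν i = κ then C else 0) := by
  have h0 : ∀ q, ‖bfun k ν β κ m q‖ₑ ≤ ∑ i : Fin k,
      (if ν i = κ then (if lev k q = m i ∧ Inr k q then (1 : ℝ≥0∞) else 0) else 0) := by
    intro q
    rcases hd : dec k q with _ | c
    · unfold bfun
      rw [hd]
      simp [vcode]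
    have hinr := inr_of_dec hd
    have hm : bfun k ν β κ m q =
        if m c.1 = lev k q ∧ ν c.1 = κ then coef k (β κ) m c.1 c.2 else 0 := by
      unfold bfun; rw [hd]; rfl
    rw [hm]
    by_cases hc : m c.1 = lev k q ∧ ν c.1 = κ
    · rw [if_pos hc]
      refine le_trans ?_ (Finset.single_le_sum (f := fun i : Fin k => if ν i = κ then
        (if lev k q = m i ∧ Inr k q then (1 : ℝ≥0∞) else 0) else 0) (fun _ _ => bot_le)
        (mem_univ c.1))
      simp only [hc.2, if_true, hc.1.symm, hinr, and_self]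
      rw [← ofReal_norm, Real.norm_eq_abs, abs_of_nonneg (coef_nonneg (hβ κ) m c.1 c.2),
        ← ENNReal.ofReal_one]
      exact ENNReal.ofReal_le_ofReal (coef_le_one m c.1 c.2)
    · rw [if_neg hc]
      simp
  refine (h.mono h0).trans ((up_sum h _ _).trans (Finset.sum_le_sum fun i _ => ?_))
  by_cases hν : ν i = κ
  · simp only [hν, if_true]
    exact up_one h k _
  · simp only [hν, if_false]
    rw [up_zero h]

/-! ### Sequences with an upper `c₀`-estimate for admissible successive blocks -/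

/-- `v` is a sequence in the unit ball of `Z` with bounded-by-one coordinate functionals and with
an upper `c₀`-estimate with constant `C` for at most `k` successive blocks beyond `k`
(the index `n : ℕ` stands for the position `n + 1`). -/
structure IsC0Seq {Z : Type} [NormedAddCommGroup Z] [NormedSpace ℝ Z] (C : ℝ) (v : ℕ → Z) :
    Prop where
  norm_le : ∀ n, ‖v n‖ ≤ 1
  coord_le : ∀ (a : ℕ →₀ ℝ) (n : ℕ), |a n| ≤ ‖Finsupp.linearCombination ℝ v a‖
  upper : ∀ (k : ℕ) (a : ℕ → (ℕ →₀ ℝ)) (B : ℝ), 0 ≤ B →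
    (∀ i < k, ∀ n ∈ (a i).support, k ≤ n + 1) →
    (∀ i j, i < j → j < k → ∀ n ∈ (a i).support, ∀ m ∈ (a j).support, n < m) →
    (∀ i < k, ‖Finsupp.linearCombination ℝ v (a i)‖ ≤ B) →
    ‖∑ i ∈ range k, Finsupp.linearCombination ℝ v (a i)‖ ≤ C * B

/-- the associated sequence norm -/
noncomputable def nzv {Z : Type} [NormedAddCommGroup Z] [NormedSpace ℝ Z] (v : ℕ → Z)
    (a : ℕ → ℝ≥0∞) : ℝ≥0∞ :=
  ⨆ b : {b : ℕ →₀ ℝ // ∀ n, ‖b n‖ₑ ≤ a n}, ‖Finsupp.linearCombination ℝ v b.1‖ₑ

lemma nzv_ge {Z : Type} [NormedAddCommGroup Z] [NormedSpace ℝ Z] (v : ℕ → Z)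
    (a : ℕ → ℝ≥0∞) (b : ℕ →₀ ℝ) (hb : ∀ n, ‖b n‖ₑ ≤ a n) :
    ‖Finsupp.linearCombination ℝ v b‖ₑ ≤ nzv v a :=
  le_iSup (fun b : {b : ℕ →₀ ℝ // ∀ n, ‖b n‖ₑ ≤ a n} =>
    ‖Finsupp.linearCombination ℝ v b.1‖ₑ) ⟨b, hb⟩

lemma upC_nzv {Z : Type} [NormedAddCommGroup Z] [NormedSpace ℝ Z] {C : ℝ} (hC : 0 < C)
    {v : ℕ → Z} (hv : IsC0Seq C v) : UpC (ENNReal.ofReal C) (nzv v) where
  mono := by
    intro a b hab
    exact iSup_le fun c => nzv_ge v b c.1 fun n => (c.2 n).trans (hab n)
  add := by
    intro a b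
    refine iSup_le fun c => ?_
    obtain ⟨c, hc⟩ := c
    -- split `c`
    let c1 : ℕ →₀ ℝ := Finsupp.onFinset c.support
      (fun n => if ‖c n‖ₑ ≤ a n then c n else (if 0 ≤ c n then (a n).toReal else -(a n).toReal))
      (fun n hn => by
        by_contra h
        apply hn
        rw [Finsupp.notMem_support_iff.1 h]
        simp)
    have hc1 : ∀ n, c1 n = if ‖c n‖ₑ ≤ a n then c n else
      (if 0 ≤ c n then (a n).toReal else -(a n).toReal) := fun _ => rfl
    have h1 : ∀ n, ‖c1 n‖ₑ ≤ a n := by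
      intro n
      rw [hc1]
      split_ifs with h2 h3
      · exact h2
      · rw [← ofReal_norm, Real.norm_eq_abs, abs_of_nonneg ENNReal.toReal_nonneg]
        exact ENNReal.ofReal_toReal_le
      · rw [enorm_neg, ← ofReal_norm, Real.norm_eq_abs, abs_of_nonneg ENNReal.toReal_nonneg]
        exact ENNReal.ofReal_toReal_le
    have h2 : ∀ n, ‖(c - c1) n‖ₑ ≤ b n := by
      intro n
      rw [Finsupp.sub_apply, hc1]
      split_ifs with h2 h3
      · simp
      · push Not at h2
        have hfin : a n ≠ ∞ := ne_top_of_lt h2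
        have h4 : (a n).toReal ≤ c n := by
          have := ENNReal.toReal_mono enorm_ne_top h2.le
          rwa [toReal_enorm, Real.norm_eq_abs, abs_of_nonneg h3] at this
        rw [← ofReal_norm, Real.norm_eq_abs, abs_of_nonneg (by linarith),
          ENNReal.ofReal_sub _ ENNReal.toReal_nonneg, ENNReal.ofReal_toReal hfin]
        have h5 := hc n
        rw [← ofReal_norm, Real.norm_eq_abs, abs_of_nonneg h3] at h5
        exact tsub_le_iff_left.2 h5
      · push Not at h2 h3
        have hfin : a n ≠ ∞ := ne_top_of_lt h2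
        have h4 : (a n).toReal ≤ -c n := by
          have := ENNReal.toReal_mono enorm_ne_top h2.le
          rwa [toReal_enorm, Real.norm_eq_abs, abs_of_neg h3] at this
        rw [← ofReal_norm, Real.norm_eq_abs, sub_neg_eq_add, abs_of_nonpos (by linarith)]
        have e1 : -(c n + (a n).toReal) = -c n - (a n).toReal := by ring
        rw [e1, ENNReal.ofReal_sub _ ENNReal.toReal_nonneg, ENNReal.ofReal_toReal hfin]
        have h5 := hc n
        rw [← ofReal_norm, Real.norm_eq_abs, abs_of_neg h3] at h5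
        exact tsub_le_iff_left.2 h5
    have h3 : c = c1 + (c - c1) := by abel
    calc ‖Finsupp.linearCombination ℝ v c‖ₑ
        = ‖Finsupp.linearCombination ℝ v c1 + Finsupp.linearCombination ℝ v (c - c1)‖ₑ := by
          rw [← map_add, ← h3]
      _ ≤ ‖Finsupp.linearCombination ℝ v c1‖ₑ + ‖Finsupp.linearCombination ℝ v (c - c1)‖ₑ :=
          enorm_add_le _ _
      _ ≤ nzv v a + nzv v b := add_le_add (nzv_ge v a c1 h1) (nzv_ge v b _ h2)
  single_le := by
    intro n c
    refine iSup_le fun b => ?_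
    obtain ⟨b, hb⟩ := b
    have h1 : b = Finsupp.single n (b n) := by
      ext i
      by_cases hi : i = n
      · subst hi; simp
      · have := hb i
        rw [Pi.single_eq_of_ne hi] at this
        rw [Finsupp.single_eq_of_ne hi]
        simpa using this
    have h2 := hb n
    rw [Pi.single_eq_same] at h2
    show ‖Finsupp.linearCombination ℝ v b‖ₑ ≤ c
    rw [h1, Finsupp.linearCombination_single, enorm_smul]
    calc ‖b n‖ₑ * ‖v n‖ₑ ≤ c * 1 := by
          refine mul_le_mul' h2 ?_
          rw [← ofReal_norm, ← ENNReal.ofReal_one]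
          exact ENNReal.ofReal_le_ofReal (hv.norm_le n)
      _ = c := mul_one c
  succ := by
    intro c hc S a B ha hB
    rcases eq_or_ne B ∞ with hBt | hBt
    · rw [hBt, ENNReal.mul_top (by simpa using hC)]
      exact le_top
    refine iSup_le fun b => ?_
    obtain ⟨b, hb⟩ := b
    show ‖Finsupp.linearCombination ℝ v b‖ₑ ≤ _
    set k := S.card with hk
    let g : ℕ → ℕ := fun i => if hi : i < k then S.orderEmbOfFin rfl ⟨i, hi⟩ else 0
    have hg : ∀ i (hi : i < k), g i = S.orderEmbOfFin rfl ⟨i, hi⟩ := fun i hi => dif_pos hi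
    have hgS : ∀ i, i < k → g i ∈ S := fun i hi => by
      rw [hg i hi]; exact S.orderEmbOfFin_mem rfl _
    have hglt : ∀ i j, i < j → j < k → g i < g j := by
      intro i j hij hj
      rw [hg i (hij.trans hj), hg j hj]
      exact (S.orderEmbOfFin rfl).strictMono hij
    let x : ℕ → (ℕ →₀ ℝ) := fun i => b.filter (fun n => c n = g i)
    have hsupp : ∀ i n, n ∈ (x i).support → c n = g i ∧ b n ≠ 0 := by
      intro i n hn
      rw [Finsupp.support_filter, mem_filter, Finsupp.mem_support_iff] at hn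
      exact ⟨hn.2, hn.1⟩
    have hbS : ∀ n, b n ≠ 0 → c n ∈ S ∧ k ≤ n + 1 := by
      intro n hn
      refine ha n fun h0 => ?_
      have := hb n
      rw [h0] at this
      exact hn (by simpa using this)
    have hsum : b = ∑ i ∈ range k, x i := by
      ext n
      rw [Finsupp.finsetSum_apply]
      by_cases hn : b n = 0
      · rw [hn, Finset.sum_eq_zero]
        intro i _
        simp only [x]
        rw [Finsupp.filter_apply]
        split_ifs
        · exact hn
        · rfl
      · obtain ⟨h1, -⟩ := hbS n hn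
        have h2 : c n ∈ Set.range (S.orderEmbOfFin rfl) := by
          rw [Finset.range_orderEmbOfFin]; exact h1
        obtain ⟨⟨i, hi⟩, hi2⟩ := h2
        have hi3 : g i = c n := by rw [hg i hi]; exact hi2
        rw [Finset.sum_eq_single i]
        · simp only [x]
          rw [Finsupp.filter_apply, if_pos hi3.symm]
        · intro j hj hji
          simp only [x]
          rw [Finsupp.filter_apply, if_neg]
          intro h4
          rw [← hi3] at h4
          rcases lt_or_gt_of_ne hji with h5 | h5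
          · have := hglt j i h5 hi; omega
          · have := hglt i j h5 (mem_range.1 hj); omega
        · intro h5
          exact absurd (mem_range.2 hi) h5
    have h1 := hv.upper k x B.toReal ENNReal.toReal_nonneg ?_ ?_ ?_
    · rw [hsum, map_sum, ← ofReal_norm]
      refine (ENNReal.ofReal_le_ofReal h1).trans ?_
      rw [ENNReal.ofReal_mul hC.le, ENNReal.ofReal_toReal hBt]
    · intro i _ n hn
      exact (hbS n (hsupp i n hn).2).2
    · intro i j hij hj n hn m hm
      by_contra hcon
      push Not at hcon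
      have h2 := hc hcon
      rw [(hsupp i n hn).1, (hsupp j m hm).1] at h2
      have := hglt i j hij hj
      omega
    · intro i hi
      have h2 := (nzv_ge v (fun n => if c n = g i then a n else 0) (x i) (fun n => by
        simp only [x]
        rw [Finsupp.filter_apply]
        split_ifs
        · exact hb n
        · simp)).trans (hB (g i) (hgS i hi))
      rw [← toReal_enorm]
      exact ENNReal.toReal_mono hBt h2

end Pool.Agent.Y737.HE
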