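import Mathlib
import Pool.Agent.W696.TS.Embed
import Pool.Agent.Y737.HE.Aha
import Pool.Agent.Y737.HE.Up

/-!
The Hamming graphs embed equi-coarsely into `E(Z)` for every outer space `E` and every `Z` with
far-out copies of `ℓ_∞^n`.
-/
set_option autoImplicit false
open scoped ENNReal
open Finset Filter Topology
open Pool.Agent.W696.TS

namespace Pool.Agent.Y737.HE

/-- `u` is a sequence of norm one vectors of the normed space `E` with
`‖∑ a_n u_n‖ ≤ ‖∑ b_n u_n‖` for all finitely supported `0 ≤ a_n ≤ b_n`. Every normalised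
1-unconditional basis of a Banach space is such a sequence. -/
structure IsMonoSeq {E : Type} [NormedAddCommGroup E] [NormedSpace ℝ E] (u : ℕ → E) : Prop where
  norm_one : ∀ n, ‖u n‖ = 1
  mono : ∀ a b : ℕ →₀ ℝ, (∀ n, 0 ≤ a n) → (∀ n, a n ≤ b n) →
    ‖Finsupp.linearCombination ℝ u a‖ ≤ ‖Finsupp.linearCombination ℝ u b‖

/-- `Y`, together with the injective linear map `Θ` from `Y` to the sequences in `Z`, is a sum of
copies of `Z` with the outer norm of the sequence `u`: all finitely supported sequences `x` belong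
to `Y`, and the norm of `x` is the norm of `∑ ‖x_n‖ u_n`. -/
structure IsSum {E Z Y : Type} [NormedAddCommGroup E] [NormedSpace ℝ E]
    [NormedAddCommGroup Z] [NormedSpace ℝ Z] [NormedAddCommGroup Y] [NormedSpace ℝ Y]
    (u : ℕ → E) (Θ : Y →ₗ[ℝ] (ℕ → Z)) : Prop where
  injective : Function.Injective Θ
  fin : ∀ x : ℕ →₀ Z, ∃ y, Θ y = x ∧
    ‖y‖ = ‖Finsupp.linearCombination ℝ u (x.mapRange (fun z => ‖z‖) norm_zero)‖

section

variable {E Z Y : Type} [NormedAddCommGroup E] [NormedSpace ℝ E]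
    [NormedAddCommGroup Z] [NormedSpace ℝ Z] [NormedAddCommGroup Y] [NormedSpace ℝ Y]
    {u : ℕ → E} {Θ : Y →ₗ[ℝ] (ℕ → Z)}

lemma exists_place (h : IsSum u Θ) : ∃ P : (ℕ →₀ Z) → Y, ∀ x x', ‖P x - P x'‖ =
    ‖Finsupp.linearCombination ℝ u ((x - x').mapRange (fun z => ‖z‖) norm_zero)‖ := by
  choose P hP1 hP2 using h.fin
  refine ⟨P, fun x x' => ?_⟩
  rw [← hP2]
  congr 1
  apply h.injective
  rw [map_sub, hP1, hP1, hP1]
  rfl

lemma lc_enorm_le (hu : IsMonoSeq u) (a : ℕ →₀ ℝ) (S : Finset ℕ) (hS : a.support ⊆ S) :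
    ‖Finsupp.linearCombination ℝ u a‖ₑ ≤ ∑ n ∈ S, ‖a n‖ₑ := by
  rw [Finsupp.linearCombination_apply, Finsupp.sum]
  refine (enorm_sum_le _ _).trans ?_
  refine le_trans (Finset.sum_le_sum fun n _ => ?_) (Finset.sum_le_sum_of_subset hS)
  rw [enorm_smul]
  have : ‖u n‖ₑ = 1 := by rw [← ofReal_norm, hu.norm_one, ENNReal.ofReal_one]
  rw [this, mul_one]

lemma lc_ge_single (hu : IsMonoSeq u) (a : ℕ →₀ ℝ) (ha : ∀ n, 0 ≤ a n) (n : ℕ) :
    a n ≤ ‖Finsupp.linearCombination ℝ u a‖ := by
  have h1 := hu.mono (Finsupp.single n (a n)) a (fun i => by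
      rw [Finsupp.single_apply]; split_ifs; exacts [ha n, le_rfl]) (fun i => by
      rw [Finsupp.single_apply]
      split_ifs with hi
      · rw [hi]
      · exact ha i)
  rw [Finsupp.linearCombination_single, norm_smul, hu.norm_one, mul_one, Real.norm_eq_abs,
    abs_of_nonneg (ha n)] at h1
  exact h1

/-- the indicator function of `S` with the value `c` -/
noncomputable def ind (S : Finset ℕ) (c : ℝ) : ℕ →₀ ℝ :=
  Finsupp.onFinset S (fun n => if n ∈ S then c else 0) (fun n hn => by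
    by_contra h
    exact hn (if_neg h))

lemma ind_apply (S : Finset ℕ) (c : ℝ) (n : ℕ) : ind S c n = if n ∈ S then c else 0 := rfl

lemma lc_ind (S : Finset ℕ) (c : ℝ) :
    Finsupp.linearCombination ℝ u (ind S c) = c • ∑ n ∈ S, u n := by
  unfold ind
  rw [Finsupp.linearCombination_onFinset, Finset.smul_sum]
  exact Finset.sum_congr rfl fun n hn => by rw [if_pos hn]

lemma sum_mono (hu : IsMonoSeq u) {S T : Finset ℕ} (h : S ⊆ T) :
    ‖∑ n ∈ S, u n‖ ≤ ‖∑ n ∈ T, u n‖ := by
  have h1 := hu.mono (ind S 1) (ind T 1) (fun n => by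
      rw [ind_apply]; split_ifs; exacts [zero_le_one, le_rfl]) (fun n => by
      rw [ind_apply, ind_apply]
      split_ifs with h1 h2
      · exact le_rfl
      · exact absurd (h h1) h2
      · exact zero_le_one
      · exact le_rfl)
  rwa [lc_ind, lc_ind, one_smul, one_smul] at h1

open Classical in
/-- explicit Lipschitz maps -/
theorem explicit (hu : IsMonoSeq u) (hY : IsSum u Θ) (C : ℝ≥0∞) (hCt : C ≠ ∞)
    (nz : (ℕ → ℝ≥0∞) → ℝ≥0∞) (hnz : UpC C nz)
    (J : (ℕ →₀ ℝ) →ₗ[ℝ] Z) (hlow : ∀ b n, ‖b n‖ₑ ≤ ‖J b‖ₑ)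
    (hup : ∀ b, ‖J b‖ₑ ≤ nz (fun n => ‖b n‖ₑ)) (k : ℕ) :
    ∃ f : HV k → Y, ∀ m n,
      (∀ P : ℕ, (2 : ℝ) ^ (P + 1) ≤ dH k m n → ‖∑ κ ∈ range P, u κ‖ ≤ ‖f m - f n‖) ∧
      ‖f m - f n‖ ≤ (C * C + 2 * C).toReal * dH k m n := by
  have hCC : C * C ≠ ∞ := ENNReal.mul_ne_top hCt hCt
  have h2C : 2 * C ≠ ∞ := ENNReal.mul_ne_top (by norm_num) hCt
  obtain ⟨P, hP⟩ := exists_place hY
  have hsupp : ∀ (m : Fin k → ℕ) (κ : ℕ), J (bfin k rul bt κ m) ≠ 0 → κ ∈ range (k + 1) := by
    intro m κ hκ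
    by_contra hcon
    apply hκ
    rw [← enorm_eq_zero]
    refine le_antisymm (((hup _).trans (up_single_block_le hnz k rul bt bt_nonneg κ m)).trans
      (le_of_eq ?_)) bot_le
    refine Finset.sum_eq_zero fun i _ => if_neg fun hi => hcon ?_
    rw [mem_range, ← hi]
    have h1 : rul i ≤ Nat.log 2 ((i : ℕ) + 1) := padicValNat_le_nat_log _
    have h2 : Nat.log 2 ((i : ℕ) + 1) < (i : ℕ) + 1 := Nat.log_lt_self 2 (by omega)
    have := i.2
    omega
  let F : HV k → (ℕ →₀ Z) := fun m =>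
    Finsupp.onFinset (range (k + 1)) (fun κ => J (bfin k rul bt κ m.1)) (hsupp m.1)
  have hF : ∀ m κ, F m κ = J (bfin k rul bt κ m.1) := fun _ _ => rfl
  refine ⟨fun m => P (F m), fun m n => ?_⟩
  set l : ℕ := (univ.filter fun i => m.1 i ≠ n.1 i).card with hldef
  have hdl : dH k m n = (l : ℝ) := rfl
  have hlk : l ≤ k := by
    rw [hldef]
    exact (card_le_univ _).trans (by simp)
  set a : ℕ →₀ ℝ := (F m - F n).mapRange (fun z => ‖z‖) norm_zero with ha
  have haval : ∀ κ, a κ = ‖J (bfin k rul bt κ m.1 - bfin k rul bt κ n.1)‖ := by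
    intro κ
    rw [ha, Finsupp.mapRange_apply, Finsupp.sub_apply, hF, hF, map_sub]
  have ha0 : ∀ κ, 0 ≤ a κ := fun κ => by rw [haval]; exact norm_nonneg _
  refine ⟨?_, ?_⟩
  · intro Q hQ
    rw [hP, ← ha]
    have h1 := hu.mono (ind (range Q) 1) a (fun n => by
        rw [ind_apply]; split_ifs; exacts [zero_le_one, le_rfl]) (fun κ => by
        rw [ind_apply]
        split_ifs with hκ
        · have h2 : 2 ^ (Q + 1) ≤ l := by
            rw [hdl] at hQ
            exact_mod_cast hQ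
          have h3 : 2 ^ (κ + 1) ≤ 2 ^ Q := Nat.pow_le_pow_right (by norm_num) (mem_range.1 hκ)
          have h4 : 2 ^ (Q + 1) = 2 * 2 ^ Q := by rw [pow_succ]; ring
          obtain ⟨q, hq⟩ := exists_big m.2 n.2 (h := l / 2) (κ := κ) (by rw [← hldef]; omega)
            (by omega)
          have h5 := hq.trans (hlow (bfin k rul bt κ m.1 - bfin k rul bt κ n.1) q)
          rw [haval, ← toReal_enorm]
          exact (ENNReal.toReal_mono enorm_ne_top h5)
        · exact ha0 κ)
    rwa [lc_ind, one_smul] at h1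
  · rw [hP, ← ha, hdl, ← toReal_enorm]
    refine ENNReal.toReal_le_of_le_ofReal (by positivity) ?_
    refine (lc_enorm_le hu a (range (k + 1)) ?_).trans ?_
    · intro κ hκ
      by_contra hcon
      rw [Finsupp.mem_support_iff, haval] at hκ
      apply hκ
      rw [map_sub, norm_eq_zero]
      have e1 : J (bfin k rul bt κ m.1) = 0 := by
        by_contra h; exact hcon (hsupp _ _ h)
      have e2 : J (bfin k rul bt κ n.1) = 0 := by
        by_contra h; exact hcon (hsupp _ _ h)
      rw [e1, e2, sub_zero]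
    have h1 : ∀ κ ∈ range (k + 1), ‖a κ‖ₑ ≤ C * C * ENNReal.ofReal (bt κ * (l : ℝ)) +
        ∑ i ∈ univ.filter (fun i : Fin k => m.1 i ≠ n.1 i), (if rul i = κ then 2 * C else 0) := by
      intro κ _
      rw [haval, enorm_norm]
      exact (hup _).trans (up_block_le hnz k rul bt bt_nonneg κ m.1 n.1)
    refine (Finset.sum_le_sum h1).trans ?_
    rw [Finset.sum_add_distrib]
    have h2 : ∑ κ ∈ range (k + 1), C * C * ENNReal.ofReal (bt κ * (l : ℝ)) ≤
        C * C * ENNReal.ofReal l := by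
      rw [← Finset.mul_sum, ← ENNReal.ofReal_sum_of_nonneg
        (fun κ _ => mul_nonneg (bt_nonneg κ) (by positivity))]
      refine mul_le_mul' le_rfl (ENNReal.ofReal_le_ofReal ?_)
      have hs : HasSum (fun κ => bt κ * (l : ℝ)) (1 * l) := (hasSum_geometric_two' 1).mul_right _
      have := sum_le_hasSum (range (k + 1))
        (fun κ _ => mul_nonneg (bt_nonneg κ) (by positivity)) hs
      rwa [one_mul] at this
    have h3 : ∑ κ ∈ range (k + 1), ∑ i ∈ univ.filter (fun i : Fin k => m.1 i ≠ n.1 i),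
        (if rul i = κ then 2 * C else 0) ≤ 2 * C * ENNReal.ofReal l := by
      rw [Finset.sum_comm]
      refine (Finset.sum_le_sum (g := fun _ => 2 * C) fun i _ => ?_).trans ?_
      · rw [Finset.sum_ite_eq]
        split_ifs
        · exact le_rfl
        · exact bot_le
      · rw [Finset.sum_const, ← hldef, nsmul_eq_mul, ENNReal.ofReal_natCast, mul_comm]
    refine (add_le_add h2 h3).trans (le_of_eq ?_)
    rw [← add_mul, ENNReal.ofReal_mul ENNReal.toReal_nonneg,
      ENNReal.ofReal_toReal (ENNReal.add_ne_top.2 ⟨hCC, h2C⟩)]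

/-- the integer valued Hamming distance -/
def dN (k : ℕ) (m n : HV k) : ℕ := (univ.filter fun i => m.1 i ≠ n.1 i).card

lemma dN_self (k : ℕ) (m : HV k) : dN k m m = 0 := by simp [dN]

lemma dN_symm (k : ℕ) (m n : HV k) : dN k m n = dN k n m := by
  unfold dN
  congr 1
  ext i
  simp [eq_comm]

lemma dN_tri (k : ℕ) (a b c : HV k) : dN k a c ≤ dN k a b + dN k b c := by
  classical
  unfold dN
  refine (card_le_card ?_).trans (card_union_le _ _)
  intro i hi
  rw [mem_filter] at hi
  rw [mem_union, mem_filter, mem_filter]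
  by_cases h : a.1 i = b.1 i
  · right; exact ⟨mem_univ _, by rw [← h]; exact hi.2⟩
  · left; exact ⟨mem_univ _, h⟩

instance (k : ℕ) : Countable (HV k) := by unfold HV; infer_instance

instance (k : ℕ) : Nonempty (HV k) := ⟨⟨fun i => (i : ℕ), fun _ _ h => h⟩⟩

/-- the case of a bounded outer norm -/
theorem bounded_case (hu : IsMonoSeq u) (hY : IsSum u Θ) (z : Z) (hz : ‖z‖ = 1) (C : ℝ)
    (hC : ∀ P : ℕ, ‖∑ n ∈ range P, u n‖ ≤ C) (k : ℕ) :
    ∃ f : HV k → Y, ∀ m n, max 0 (dH k m n / 16 - 1) ≤ ‖f m - f n‖ ∧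
      ‖f m - f n‖ ≤ C * dH k m n := by
  obtain ⟨P, hP⟩ := exists_place hY
  obtain ⟨y, hy⟩ := exists_surjective_nat (HV k)
  have hy' := hy
  let c : HV k → ℕ → ℕ := fun x n =>
    if (Nat.unpair n).1 ≤ k then co (dN k) y (Nat.unpair n).1 (Nat.unpair n).2 x else 0
  choose j0 hj0 using hy'
  have hfin : ∀ x : HV k, ((range (k + 1) ×ˢ range (j0 x + 1)).image
      (fun p : ℕ × ℕ => Nat.pair p.1 p.2) : Finset ℕ) = ((range (k + 1) ×ˢ range (j0 x + 1)).image
      (fun p : ℕ × ℕ => Nat.pair p.1 p.2) : Finset ℕ) := fun _ => rfl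
  have hsupp : ∀ (x : HV k) (n : ℕ), c x n ≠ 0 →
      n ∈ (range (k + 1) ×ˢ range (j0 x + 1)).image (fun p : ℕ × ℕ => Nat.pair p.1 p.2) := by
    intro x n hn
    have h1 : (Nat.unpair n).1 ≤ k := by
      by_contra h; exact hn (if_neg h)
    have h2 : (Nat.unpair n).2 ≤ j0 x := by
      by_contra h
      apply hn
      simp only [c]
      rw [if_pos h1]
      exact co_support (dN k) y (dN_self k) _ _ (j0 x) x (hj0 x) (by omega)
    rw [mem_image]
    refine ⟨Nat.unpair n, ?_, Nat.pair_unpair n⟩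
    rw [mem_product, mem_range, mem_range]
    omega
  let F : HV k → (ℕ →₀ Z) := fun x =>
    Finsupp.onFinset ((range (k + 1) ×ˢ range (j0 x + 1)).image
      (fun p : ℕ × ℕ => Nat.pair p.1 p.2)) (fun n => (c x n : ℝ) • z) (fun n hn => hsupp x n (by
        intro h
        apply hn
        rw [h, Nat.cast_zero, zero_smul]))
  have hF : ∀ x n, F x n = (c x n : ℝ) • z := fun _ _ => rfl
  refine ⟨fun x => P (F x), fun m n => ?_⟩
  set a : ℕ →₀ ℝ := (F m - F n).mapRange (fun z => ‖z‖) norm_zero with ha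
  have haval : ∀ i, a i = |(c m i : ℝ) - c n i| := by
    intro i
    rw [ha, Finsupp.mapRange_apply, Finsupp.sub_apply, hF, hF, ← sub_smul, norm_smul, hz, mul_one,
      Real.norm_eq_abs]
  have ha0 : ∀ i, 0 ≤ a i := fun i => by rw [haval]; exact abs_nonneg _
  have hd : dH k m n = (dN k m n : ℝ) := rfl
  have hC0 : 0 ≤ C := (norm_nonneg _).trans (hC 0)
  have hlip : ∀ i, a i ≤ dN k m n := by
    intro i
    rw [haval]
    have h1 : c m i ≤ c n i + dN k m n := by
      simp only [c]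
      split_ifs
      · exact co_lip (dN k) y (dN_symm k) (dN_tri k) _ _ m n
      · omega
    have h2 : c n i ≤ c m i + dN k m n := by
      simp only [c]
      split_ifs
      · have := co_lip (dN k) y (dN_symm k) (dN_tri k) (Nat.unpair i).1 (Nat.unpair i).2 n m
        rwa [dN_symm k n m] at this
      · omega
    have h1' : (c m i : ℝ) ≤ c n i + dN k m n := by exact_mod_cast h1
    have h2' : (c n i : ℝ) ≤ c m i + dN k m n := by exact_mod_cast h2
    rw [abs_le]
    constructor <;> linarith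
  refine ⟨?_, ?_⟩
  · rw [hP, ← ha]
    refine max_le (norm_nonneg _) ?_
    rcases lt_or_ge (dN k m n) 4 with h4 | h4
    · have : (dN k m n : ℝ) < 4 := by exact_mod_cast h4
      have h5 := norm_nonneg (Finsupp.linearCombination ℝ u a)
      rw [hd]
      linarith
    · -- choose the scale
      set s := Nat.log 2 (dN k m n) - 2 with hs
      have hl2 : 2 ≤ Nat.log 2 (dN k m n) := by
        have : Nat.log 2 4 = 2 := by norm_num [Nat.log]
        calc 2 = Nat.log 2 4 := this.symm
          _ ≤ _ := Nat.log_mono_right h4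
      have h5 : 2 ^ (s + 2) ≤ dN k m n := by
        rw [hs, Nat.sub_add_cancel hl2]
        exact Nat.pow_log_le_self 2 (by omega)
      have h6 : dN k m n < 2 ^ (s + 3) := by
        have := Nat.lt_pow_succ_log_self (b := 2) (by norm_num) (dN k m n)
        have e : s + 3 = (Nat.log 2 (dN k m n)).succ := by omega
        rw [e]
        exact this
      have hdk : dN k m n ≤ k := by
        unfold dN
        exact (card_le_univ _).trans (by simp)
      have hsk : s ≤ k := by
        have h7 : s < 2 ^ s := Nat.lt_two_pow_self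
        have h8 : 2 ^ (s + 2) = 4 * 2 ^ s := by rw [pow_add]; ring
        omega
      obtain ⟨j, hj1, hj2⟩ := co_sep (dN k) y (dN_self k) (dN_symm k) (dN_tri k) hy s m n h5
      have h9 := lc_ge_single hu a ha0 (Nat.pair s j)
      refine le_trans ?_ h9
      rw [haval]
      have e1 : c m (Nat.pair s j) = co (dN k) y s j m := by
        simp only [c, Nat.unpair_pair]
        exact if_pos hsk
      have e2 : c n (Nat.pair s j) = 0 := by
        simp only [c, Nat.unpair_pair]
        rw [if_pos hsk]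
        exact hj2
      rw [e1, e2, Nat.cast_zero, sub_zero, abs_of_nonneg (Nat.cast_nonneg _), hd]
      have h10 : (2 : ℝ) ^ s ≤ 2 * (co (dN k) y s j m : ℝ) := by exact_mod_cast hj1
      have h11 : (dN k m n : ℝ) < 2 ^ (s + 3) := by exact_mod_cast h6
      have h12 : (2 : ℝ) ^ (s + 3) = 8 * 2 ^ s := by rw [pow_add]; ring
      linarith
  · rw [hP, ← ha, hd]
    obtain ⟨Q, hQ⟩ : ∃ Q : ℕ, a.support ⊆ range Q := by
      obtain ⟨Q, hQ⟩ := a.support.bddAbove
      exact ⟨Q + 1, fun i hi => by rw [mem_range]; have := hQ hi; omega⟩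
    have h1 := hu.mono a (ind (range Q) (dN k m n)) ha0 (fun i => by
      rw [ind_apply]
      split_ifs with hi
      · exact hlip i
      · have : a i = 0 := by
          by_contra hcon
          exact hi (hQ (Finsupp.mem_support_iff.2 hcon))
        rw [this])
    refine h1.trans ?_
    rw [lc_ind, norm_smul, Real.norm_eq_abs, abs_of_nonneg (Nat.cast_nonneg _), mul_comm]
    exact mul_le_mul_of_nonneg_right (hC Q) (Nat.cast_nonneg _)

/-- **The Hamming graphs embed equi-coarsely into `E(Z)`, whatever the outer space is.** -/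
theorem embeds (hu : IsMonoSeq u) (hY : IsSum u Θ) (C : ℝ≥0∞) (hCt : C ≠ ∞)
    (nz : (ℕ → ℝ≥0∞) → ℝ≥0∞) (hnz : UpC C nz)
    (J : (ℕ →₀ ℝ) →ₗ[ℝ] Z) (hlow : ∀ b n, ‖b n‖ₑ ≤ ‖J b‖ₑ)
    (hup : ∀ b, ‖J b‖ₑ ≤ nz (fun n => ‖b n‖ₑ)) : EquiCoarselyEmbeds HV dH Y := by
  by_cases hb : ∃ D : ℝ, ∀ P : ℕ, ‖∑ n ∈ range P, u n‖ ≤ D
  · obtain ⟨D, hD⟩ := hb
    have hD0 : 0 ≤ D := (norm_nonneg _).trans (hD 0)
    have hz : ‖J (Finsupp.single 0 1)‖ = 1 := by
      have h1 := hlow (Finsupp.single 0 1) 0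
      have h2 := hup (Finsupp.single 0 1)
      have e : (fun n => ‖(Finsupp.single 0 1 : ℕ →₀ ℝ) n‖ₑ) = Pi.single 0 1 := by
        funext n
        by_cases hn : n = 0
        · subst hn; simp
        · simp [Finsupp.single_apply, hn, Ne.symm hn]
      rw [e] at h2
      have h3 := h2.trans (hnz.single_le 0 1)
      have h4 : ‖J (Finsupp.single 0 1)‖ₑ = 1 := le_antisymm h3 (by simpa using h1)
      rw [← toReal_enorm, h4, ENNReal.toReal_one]
    refine ⟨fun t => max 0 (t / 16 - 1), fun t => D * t, ?_, ?_, ?_, ?_, ?_⟩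
    · intro s _ t _ hst
      exact max_le_max le_rfl (by linarith)
    · intro s _ t _ hst
      exact mul_le_mul_of_nonneg_left hst hD0
    · intro t ht
      exact ⟨le_max_left _ _, mul_nonneg hD0 ht⟩
    · rw [tendsto_atTop]
      intro r
      filter_upwards [eventually_ge_atTop (16 * (r + 1))] with t ht
      exact le_trans (by linarith) (le_max_right _ _)
    · exact fun k => bounded_case hu hY _ hz D hD k
  · push Not at hb
    refine ⟨fun t => ‖∑ κ ∈ range (Nat.log 2 ⌊t⌋₊ - 1), u κ‖,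
      fun t => (C * C + 2 * C).toReal * t, ?_, ?_, ?_, ?_, ?_⟩
    · intro s _ t _ hst
      refine sum_mono hu (range_subset_range.2 ?_)
      exact Nat.sub_le_sub_right (Nat.log_mono_right (Nat.floor_mono hst)) 1
    · intro s _ t _ hst
      exact mul_le_mul_of_nonneg_left hst ENNReal.toReal_nonneg
    · intro t ht
      exact ⟨norm_nonneg _, mul_nonneg ENNReal.toReal_nonneg ht⟩
    · rw [tendsto_atTop]
      intro D
      obtain ⟨P, hP⟩ := hb D
      filter_upwards [eventually_ge_atTop ((2 : ℝ) ^ (P + 1))] with t ht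
      refine hP.le.trans (sum_mono hu (range_subset_range.2 ?_))
      have h3 : 2 ^ (P + 1) ≤ ⌊t⌋₊ := by
        apply Nat.le_floor
        exact_mod_cast ht
      have h4 : P + 1 ≤ Nat.log 2 ⌊t⌋₊ := by
        have := Nat.log_mono_right (b := 2) h3
        rwa [Nat.log_pow (by norm_num)] at this
      omega
    · intro k
      obtain ⟨f, hf⟩ := explicit hu hY C hCt nz hnz J hlow hup k
      refine ⟨f, fun m n => ⟨?_, (hf m n).2⟩⟩
      have hd : dH k m n = (dN k m n : ℝ) := rfl
      rcases Nat.eq_zero_or_pos (Nat.log 2 ⌊dH k m n⌋₊ - 1) with h0 | h0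
      · simp only [h0]
        simp
      · refine (hf m n).1 _ ?_
        rw [hd, Nat.floor_natCast] at h0 ⊢
        rw [Nat.sub_add_cancel (by omega)]
        have h5 : dN k m n ≠ 0 := by
          intro h6
          rw [h6] at h0
          simp at h0
        exact_mod_cast Nat.pow_log_le_self 2 h5

end

end Pool.Agent.Y737.HE
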