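import Mathlib
import Pool.Agent.W696.TS.TStar
import Pool.Agent.W696.TS.Asym
import Pool.Agent.Y737.HE.Gen

/-!
Instances: the spaces `T*` and `W` as inner spaces, `T*(T*)` and `W(W)` as sums, and the existence
of the sums `E(Z)`.
-/
set_option autoImplicit false
open scoped ENNReal
open Finset Filter Topology
open Pool.Agent.W696.TS Pool.Agent.H825R3.Tsi

namespace Pool.Agent.Y737.HE

/-- embeddings into sums of spaces with an upper `c₀`-sequence -/
theorem embeds_seq {E Z Y : Type} [NormedAddCommGroup E] [NormedSpace ℝ E]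
    [NormedAddCommGroup Z] [NormedSpace ℝ Z] [NormedAddCommGroup Y] [NormedSpace ℝ Y]
    {u : ℕ → E} {Θ : Y →ₗ[ℝ] (ℕ → Z)} {C : ℝ} (hC : 0 < C) {v : ℕ → Z} (hv : IsC0Seq C v)
    (hu : IsMonoSeq u) (hY : IsSum u Θ) :
    EquiCoarselyEmbeds HV dH Y ∧ ∀ k : ℕ, ∃ f : HV k → Y, ∀ m n,
      (∀ P : ℕ, (2 : ℝ) ^ (P + 1) ≤ dH k m n → ‖∑ κ ∈ range P, u κ‖ ≤ ‖f m - f n‖) ∧
      ‖f m - f n‖ ≤ (C ^ 2 + 2 * C) * dH k m n := by
  have hlow : ∀ (b : ℕ →₀ ℝ) (n : ℕ), ‖b n‖ₑ ≤ ‖Finsupp.linearCombination ℝ v b‖ₑ := by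
    intro b n
    rw [← ofReal_norm, ← ofReal_norm]
    exact ENNReal.ofReal_le_ofReal (hv.coord_le b n)
  have hup : ∀ b : ℕ →₀ ℝ, ‖Finsupp.linearCombination ℝ v b‖ₑ ≤ nzv v (fun n => ‖b n‖ₑ) :=
    fun b => nzv_ge v _ b fun _ => le_rfl
  refine ⟨embeds hu hY _ ENNReal.ofReal_ne_top (nzv v) (upC_nzv hC hv) _ hlow hup, fun k => ?_⟩
  obtain ⟨f, hf⟩ := explicit hu hY _ ENNReal.ofReal_ne_top (nzv v) (upC_nzv hC hv) _ hlow hup k
  have e1 : (ENNReal.ofReal C * ENNReal.ofReal C + 2 * ENNReal.ofReal C).toReal = C ^ 2 + 2 * C := by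
    rw [ENNReal.toReal_add (ENNReal.mul_ne_top ENNReal.ofReal_ne_top ENNReal.ofReal_ne_top)
      (ENNReal.mul_ne_top (by norm_num) ENNReal.ofReal_ne_top), ENNReal.toReal_mul,
      ENNReal.toReal_mul, ENNReal.toReal_ofReal hC.le, ENNReal.toReal_ofNat]
    ring
  rw [e1] at hf
  exact ⟨f, hf⟩

/-- a criterion for upper `c₀`-sequences -/
lemma isC0Seq_of {Z : Type} [NormedAddCommGroup Z] [NormedSpace ℝ Z] {v : ℕ → Z} {C : ℝ}
    (hC : 0 ≤ C) (nz : (ℕ → ℝ≥0∞) → ℝ≥0∞) (hnz : UpC (ENNReal.ofReal C) nz)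
    (hlow : ∀ a n, a n ≤ nz a)
    (hN : ∀ a : ℕ →₀ ℝ, ‖Finsupp.linearCombination ℝ v a‖ₑ = nz (fun n => ‖a n‖ₑ)) :
    IsC0Seq C v where
  norm_le n := by
    have h1 := hN (Finsupp.single n 1)
    have e1 : (fun i => ‖(Finsupp.single n 1 : ℕ →₀ ℝ) i‖ₑ) = Pi.single n 1 := by
      funext i
      by_cases hi : i = n
      · subst hi; simp
      · simp [Finsupp.single_apply, hi, Ne.symm hi]
    rw [Finsupp.linearCombination_single, one_smul, e1] at h1
    have h2 := hnz.single_le n 1
    rw [← h1, ← ofReal_norm] at h2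
    have h3 := ENNReal.toReal_mono ENNReal.one_ne_top h2
    rwa [ENNReal.toReal_ofReal (norm_nonneg _), ENNReal.toReal_one] at h3
  coord_le a n := by
    have h1 := hlow (fun n => ‖a n‖ₑ) n
    rw [← hN] at h1
    have h2 := ENNReal.toReal_mono enorm_ne_top h1
    rwa [toReal_enorm, toReal_enorm, Real.norm_eq_abs] at h2
  upper k a B hB0 hk hsucc hB := by
    classical
    rw [← map_sum]
    set s : ℕ →₀ ℝ := ∑ i ∈ range k, a i with hs
    have hsn : ∀ n, s n = ∑ i ∈ range k, a i n := fun n => by rw [hs, Finsupp.finsetSum_apply]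
    let c : ℕ → ℕ := fun n => (range k).sup (fun i => if ∃ m ∈ (a i).support, m ≤ n then i else 0)
    have hcm : Monotone c := by
      intro n n' hn
      refine Finset.sup_mono_fun fun i _ => ?_
      split_ifs with h1 h2
      · exact le_rfl
      · exfalso
        obtain ⟨m, hm, hmn⟩ := h1
        exact h2 ⟨m, hm, hmn.trans hn⟩
      · exact Nat.zero_le _
      · exact le_rfl
    have hkey : ∀ i, i < k → ∀ n, a i n ≠ 0 → c n = i := by
      intro i hi n hn
      apply le_antisymm
      · refine Finset.sup_le fun j hj => ?_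
        split_ifs with h1
        · obtain ⟨m, hm, hmn⟩ := h1
          by_contra hcon
          push Not at hcon
          have := hsucc i j hcon (mem_range.1 hj) n (Finsupp.mem_support_iff.2 hn) m hm
          omega
        · exact Nat.zero_le _
      · have h1 : (if ∃ m ∈ (a i).support, m ≤ n then i else 0) ≤ c n :=
          Finset.le_sup (f := fun i => if ∃ m ∈ (a i).support, m ≤ n then i else 0)
            (mem_range.2 hi)
        rwa [if_pos ⟨n, Finsupp.mem_support_iff.2 hn, le_rfl⟩] at h1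
    have hex : ∀ n, s n ≠ 0 → ∃ i, i < k ∧ a i n ≠ 0 := by
      intro n hn
      by_contra hcon
      push Not at hcon
      apply hn
      rw [hsn]
      exact Finset.sum_eq_zero fun i hi => hcon i (mem_range.1 hi)
    have h1 := hnz.succ c hcm (range k) (fun n => ‖s n‖ₑ) (ENNReal.ofReal B) ?_ ?_
    · rw [← hN, ← ENNReal.ofReal_mul hC, ← ofReal_norm] at h1
      exact (ENNReal.ofReal_le_ofReal_iff (mul_nonneg hC hB0)).1 h1
    · intro n hn
      have hn' : s n ≠ 0 := by
        intro h; apply hn; simp [h]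
      obtain ⟨i, hi, hi2⟩ := hex n hn'
      rw [hkey i hi n hi2, card_range, mem_range]
      exact ⟨hi, hk i hi n (Finsupp.mem_support_iff.2 hi2)⟩
    · intro i hi
      refine (hnz.mono (b := fun n => ‖a i n‖ₑ) fun n => ?_).trans ?_
      · show (if c n = i then ‖s n‖ₑ else 0) ≤ ‖a i n‖ₑ
        split_ifs with hc
        · by_cases hn : s n = 0
          · rw [hn]; simp
          · rw [hsn, Finset.sum_eq_single i]
            · intro j hj hji
              by_contra hcon
              exact hji ((hkey j (mem_range.1 hj) n hcon).symm.trans hc)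
            · intro h; exact absurd hi h
        · exact bot_le
      · rw [← hN, ← ofReal_norm]
        exact ENNReal.ofReal_le_ofReal (hB i (mem_range.1 hi))

/-! ### Existence of the sums -/

section Exist

variable {E : Type} [NormedAddCommGroup E] [NormedSpace ℝ E] {u : ℕ → E}

/-- the test sequences of an outer sequence -/
noncomputable def famU (hu : IsMonoSeq u) : TestFam where
  B := {t | ∀ a : ℕ →₀ ℝ, (∀ n, 0 ≤ a n) →
    ∑ n ∈ a.support, ENNReal.ofReal (a n) * t n ≤ ENNReal.ofReal ‖Finsupp.linearCombination ℝ u a‖}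
  single_mem n := by
    intro a ha
    calc ∑ i ∈ a.support, ENNReal.ofReal (a i) * (Pi.single n 1 : ℕ → ℝ≥0∞) i
        ≤ ENNReal.ofReal (a n) := by
          by_cases hn : n ∈ a.support
          · rw [Finset.sum_eq_single n]
            · simp
            · intro i _ hi; simp [hi]
            · intro h; exact absurd hn h
          · rw [Finset.sum_eq_zero]
            · exact bot_le
            · intro i hi
              have : i ≠ n := fun h => hn (h ▸ hi)
              simp [this]
      _ ≤ _ := ENNReal.ofReal_le_ofReal (lc_ge_single hu a ha n)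
  le_one := by
    intro t ht n
    have h1 := ht (Finsupp.single n 1) (fun i => by
      rw [Finsupp.single_apply]; split_ifs; exacts [zero_le_one, le_rfl])
    rw [Finsupp.support_single_ne_zero n one_ne_zero, Finset.sum_singleton,
      Finsupp.linearCombination_single, one_smul, hu.norm_one] at h1
    simpa using h1

lemma famU_nrm (hu : IsMonoSeq u) (a : ℕ →₀ ℝ) (ha : ∀ n, 0 ≤ a n) :
    (famU hu).nrm (fun n => ‖a n‖ₑ) = ENNReal.ofReal ‖Finsupp.linearCombination ℝ u a‖ := by
  have hval : ∀ n, ‖a n‖ₑ = ENNReal.ofReal (a n) := fun n => by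
    rw [← ofReal_norm, Real.norm_eq_abs, abs_of_nonneg (ha n)]
  apply le_antisymm
  · refine TestFam.nrm_le fun t ht => ?_
    rw [tsum_eq_sum (s := a.support)]
    · simp only [hval]
      exact ht a ha
    · intro n hn
      rw [Finsupp.notMem_support_iff.1 hn]
      simp
  · obtain ⟨g, hg1, hg2⟩ := exists_dual_vector'' ℝ (Finsupp.linearCombination ℝ u a)
    have hmem : (fun n => ENNReal.ofReal (g (u n))) ∈ (famU hu).B := by
      intro b hb
      let c : ℕ →₀ ℝ := Finsupp.onFinset b.support (fun n => if 0 ≤ g (u n) then b n else 0)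
        (fun n hn => by
          by_contra h
          apply hn
          rw [Finsupp.notMem_support_iff.1 h]
          simp)
      have hc : ∀ n, c n = if 0 ≤ g (u n) then b n else 0 := fun _ => rfl
      have hlc : g (Finsupp.linearCombination ℝ u c) =
          ∑ n ∈ b.support, b n * max (g (u n)) 0 := by
        rw [Finsupp.linearCombination_onFinset, map_sum]
        refine Finset.sum_congr rfl fun n _ => ?_
        rw [map_smul, smul_eq_mul]
        split_ifs with h
        · rw [max_eq_left h]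
        · rw [max_eq_right (le_of_not_ge h)]; simp
      have h1 : ∑ n ∈ b.support, ENNReal.ofReal (b n) * ENNReal.ofReal (g (u n)) =
          ENNReal.ofReal (∑ n ∈ b.support, b n * max (g (u n)) 0) := by
        rw [ENNReal.ofReal_sum_of_nonneg
          (fun n _ => mul_nonneg (hb n) (le_max_right _ _))]
        refine Finset.sum_congr rfl fun n _ => ?_
        rw [ENNReal.ofReal_mul (hb n), ENNReal.ofReal_max]
        simp
      rw [h1, ← hlc]
      refine ENNReal.ofReal_le_ofReal ?_
      have h2 : ‖Finsupp.linearCombination ℝ u c‖ ≤ ‖Finsupp.linearCombination ℝ u b‖ := by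
        refine hu.mono c b (fun n => ?_) (fun n => ?_)
        · rw [hc]; split_ifs; exacts [hb n, le_rfl]
        · rw [hc]; split_ifs; exacts [le_rfl, hb n]
      calc g (Finsupp.linearCombination ℝ u c) ≤ ‖g (Finsupp.linearCombination ℝ u c)‖ :=
            Real.le_norm_self _
        _ ≤ ‖g‖ * ‖Finsupp.linearCombination ℝ u c‖ := g.le_opNorm _
        _ ≤ 1 * ‖Finsupp.linearCombination ℝ u c‖ := by gcongr
        _ ≤ _ := by rw [one_mul]; exact h2
    refine le_trans ?_ ((famU hu).le_nrm (fun n => ‖a n‖ₑ) hmem)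
    have h3 : ‖Finsupp.linearCombination ℝ u a‖ = ∑ n ∈ a.support, a n * g (u n) := by
      have h4 : g (Finsupp.linearCombination ℝ u a) = ‖Finsupp.linearCombination ℝ u a‖ := by
        simpa using hg2
      rw [← h4, Finsupp.linearCombination_apply, Finsupp.sum, map_sum]
      refine Finset.sum_congr rfl fun n _ => ?_
      rw [map_smul, smul_eq_mul]
    rw [h3]
    calc ENNReal.ofReal (∑ n ∈ a.support, a n * g (u n))
        ≤ ENNReal.ofReal (∑ n ∈ a.support, a n * max (g (u n)) 0) := by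
          refine ENNReal.ofReal_le_ofReal (Finset.sum_le_sum fun n _ => ?_)
          exact mul_le_mul_of_nonneg_left (le_max_left _ _) (ha n)
      _ = ∑ n ∈ a.support, ‖a n‖ₑ * ENNReal.ofReal (g (u n)) := by
          rw [ENNReal.ofReal_sum_of_nonneg
            (fun n _ => mul_nonneg (ha n) (le_max_right _ _))]
          refine Finset.sum_congr rfl fun n _ => ?_
          rw [ENNReal.ofReal_mul (ha n), ENNReal.ofReal_max, hval]
          simp
      _ ≤ _ := ENNReal.sum_le_tsum _

/-- a sum given by a family of test sequences -/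
lemma isSum_KSum (𝓑 : TestFam) (Z : Type) [NormedAddCommGroup Z] [NormedSpace ℝ Z]
    (hN : ∀ a : ℕ →₀ ℝ, (∀ n, 0 ≤ a n) →
      𝓑.nrm (fun n => ‖a n‖ₑ) = ENNReal.ofReal ‖Finsupp.linearCombination ℝ u a‖) :
    ∃ Θ : KSum 𝓑 Z →ₗ[ℝ] (ℕ → Z), IsSum u Θ := by
  refine ⟨{ toFun := fun x => x.val, map_add' := fun _ _ => rfl, map_smul' := fun _ _ => rfl },
    fun _ _ hxy => KSum.ext' hxy, fun x => ?_⟩
  have h1 := hN (x.mapRange (fun z => ‖z‖) norm_zero) (fun n => norm_nonneg _)
  simp only [Finsupp.mapRange_apply, enorm_norm] at h1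
  have h2 : 𝓑.nrm (fun n => ‖x n‖ₑ) ≠ ∞ := by rw [h1]; exact ENNReal.ofReal_ne_top
  refine ⟨KSum.mk (fun n => x n) h2, rfl, ?_⟩
  rw [KSum.norm_def]
  show (𝓑.nrm (fun n => ‖x n‖ₑ)).toReal = _
  rw [h1, ENNReal.toReal_ofReal (norm_nonneg _)]

theorem exists_sum (hu : IsMonoSeq u) (Z : Type) [NormedAddCommGroup Z] [NormedSpace ℝ Z]
    [CompleteSpace Z] : ∃ (Y : Type) (_ : NormedAddCommGroup Y) (_ : NormedSpace ℝ Y)
      (_ : CompleteSpace Y) (Θ : Y →ₗ[ℝ] (ℕ → Z)), IsSum u Θ := by
  obtain ⟨Θ, hΘ⟩ := isSum_KSum (famU hu) Z (famU_nrm hu)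
  exact ⟨KSum (famU hu) Z, inferInstance, inferInstance, inferInstance, Θ, hΘ⟩

end Exist

/-! ### The dual of Tsirelson space -/

section Tstar

variable {T : Type} [NormedAddCommGroup T] [NormedSpace ℝ T] {e : ℕ → T} (h : IsTsirelson T e)

lemma lc_es {es : ℕ → StrongDual ℝ T} (hes : Biorthogonal e es) (a : ℕ →₀ ℝ) (k : ℕ) :
    (Finsupp.linearCombination ℝ es a) (e k) = a k := by
  rw [Finsupp.linearCombination_apply, Finsupp.sum, _root_.sum_apply]
  rw [Finset.sum_eq_single k]
  · simp [hes k k]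
  · intro m _ hm
    simp [hes m k, hm]
  · intro hn
    simp [Finsupp.notMem_support_iff.1 hn]

include h in
lemma lc_es_norm {es : ℕ → StrongDual ℝ T} (hes : Biorthogonal e es) (a : ℕ →₀ ℝ)
    (ha : ∀ n, 0 ≤ a n) : (famT h).nrm (fun n => ‖a n‖ₑ) =
      ‖Finsupp.linearCombination ℝ es a‖ₑ :=
  functional_norm h (fun n => a n) ha _ (lc_es hes a)

include h in
/-- the norm of `T*` on the span of the biorthogonal functionals, all signs -/
lemma lc_es_enorm {es : ℕ → StrongDual ℝ T} (hes : Biorthogonal e es) (a : ℕ →₀ ℝ) :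
    ‖Finsupp.linearCombination ℝ es a‖ₑ = (famT h).nrm (fun n => ‖a n‖ₑ) := by
  set g : StrongDual ℝ T := Finsupp.linearCombination ℝ es a with hg
  have hgk : ∀ k, g (e k) = a k := lc_es hes a
  have hval : ∀ x : ℕ →₀ ℝ, g (Lc e x) = ∑ n ∈ x.support, x n * a n := by
    intro x
    show g (Finsupp.linearCombination ℝ e x) = _
    rw [Finsupp.linearCombination_apply, Finsupp.sum, map_sum]
    refine Finset.sum_congr rfl fun n _ => ?_
    rw [map_smul, hgk, smul_eq_mul]
  apply le_antisymm
  · have hfin : (famT h).nrm (fun n => ‖a n‖ₑ) ≠ ∞ := (finTo (famT h) a).prop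
    have h1 : ‖g‖ ≤ ((famT h).nrm (fun n => ‖a n‖ₑ)).toReal := by
      refine ContinuousLinearMap.opNorm_le_bound _ ENNReal.toReal_nonneg fun y => ?_
      refine h.denseRange.induction_on (p := fun y => ‖g y‖ ≤
        ((famT h).nrm (fun n => ‖a n‖ₑ)).toReal * ‖y‖) y
        (isClosed_le (by fun_prop) (by fun_prop)) fun x => ?_
      rw [hval]
      have h3 : ‖∑ n ∈ x.support, x n * a n‖ₑ ≤
          (famT h).nrm (fun n => ‖a n‖ₑ) * ENNReal.ofReal ‖comb e x‖ := by
        refine (enorm_sum_le _ _).trans (le_trans ?_ (famT_le h (fun n => ‖a n‖ₑ) x))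
        refine le_trans (Finset.sum_le_sum fun n _ => ?_) (ENNReal.sum_le_tsum x.support)
        rw [enorm_mul, mul_comm]
      have h4 := ENNReal.toReal_mono (ENNReal.mul_ne_top hfin ENNReal.ofReal_ne_top) h3
      rwa [ENNReal.toReal_mul, toReal_enorm, ENNReal.toReal_ofReal (norm_nonneg _)] at h4
    rw [← ofReal_norm]
    exact ENNReal.ofReal_le_of_le_toReal h1
  · refine TestFam.nrm_le ?_
    rintro t ⟨x, hx, ht⟩
    let y : ℕ →₀ ℝ := Finsupp.onFinset x.support (fun n => if 0 ≤ a n then |x n| else -|x n|)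
      (fun n hn => by
        by_contra h0
        apply hn
        rw [Finsupp.notMem_support_iff.1 h0]
        simp)
    have hy : ∀ n, y n = if 0 ≤ a n then |x n| else -|x n| := fun n => rfl
    have hyabs : ∀ n, |y n| = |x n| := by
      intro n
      rw [hy]
      split_ifs
      · exact abs_abs _
      · rw [abs_neg, abs_abs]
    have hya : ∀ n, y n * a n = |x n| * |a n| := by
      intro n
      rw [hy]
      split_ifs with h0
      · rw [abs_of_nonneg h0]
      · rw [abs_of_neg (lt_of_not_ge h0)]; ring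
    have hPhi : Phi y = Phi x := by
      funext n
      simp only [Phi]
      rw [← ofReal_norm, ← ofReal_norm, Real.norm_eq_abs, Real.norm_eq_abs, hyabs]
    have hy1 : ‖Lc e y‖ ≤ 1 := by
      rw [h.norm_Lc, hPhi, ← h.norm_eq_rho]
      exact hx
    have h1 : ∑' n, ‖a n‖ₑ * t n = ENNReal.ofReal (g (Lc e y)) := by
      rw [hval, ENNReal.ofReal_sum_of_nonneg]
      · rw [tsum_eq_sum (s := y.support)]
        · refine Finset.sum_congr rfl fun n _ => ?_
          rw [ht n, hya, ENNReal.ofReal_mul (abs_nonneg _), mul_comm, ← ofReal_norm, ← ofReal_norm,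
            Real.norm_eq_abs, Real.norm_eq_abs]
        · intro n hn
          have h2 : y n = 0 := Finsupp.notMem_support_iff.1 hn
          have h3 := hyabs n
          rw [h2, abs_zero] at h3
          have h4 : x n = 0 := abs_eq_zero.1 h3.symm
          rw [ht n, h4]
          simp
      · intro n _
        rw [hya]
        positivity
    rw [h1]
    calc ENNReal.ofReal (g (Lc e y)) ≤ ENNReal.ofReal (‖g‖ * 1) := by
          refine ENNReal.ofReal_le_ofReal ((Real.le_norm_self _).trans ((g.le_opNorm _).trans ?_))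
          gcongr
      _ = ‖g‖ₑ := by rw [mul_one]; exact ofReal_norm g

include h in
lemma isC0Seq_es {es : ℕ → StrongDual ℝ T} (hes : Biorthogonal e es) : IsC0Seq 2 es := by
  refine isC0Seq_of (by norm_num) (famT h).nrm ?_ (fun a n => TestFam.apply_le_nrm a n)
    (lc_es_enorm h hes)
  have : ENNReal.ofReal 2 = 2 := by simp
  rw [this]
  exact UpC.of_upNorm (upNorm_T h)

include h in
lemma isMonoSeq_es {es : ℕ → StrongDual ℝ T} (hes : Biorthogonal e es) : IsMonoSeq es where
  norm_one n := by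
    have h1 := lc_es_norm h hes (Finsupp.single n 1) (fun i => by
      rw [Finsupp.single_apply]; split_ifs; exacts [zero_le_one, le_rfl])
    rw [Finsupp.linearCombination_single, one_smul] at h1
    have e1 : (fun i => ‖(Finsupp.single n 1 : ℕ →₀ ℝ) i‖ₑ) = Pi.single n 1 := by
      funext i
      by_cases hi : i = n
      · subst hi; simp
      · simp [Finsupp.single_apply, hi, Ne.symm hi]
    rw [e1] at h1
    have h2 : (famT h).nrm (Pi.single n 1) = 1 :=
      le_antisymm (TestFam.nrm_single_le n 1) (by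
        have := TestFam.apply_le_nrm (𝓑 := famT h) (Pi.single n 1) n
        simpa using this)
    rw [← toReal_enorm, ← h1, h2, ENNReal.toReal_one]
  mono a b ha hab := by
    have h1 := lc_es_norm h hes a ha
    have h2 := lc_es_norm h hes b (fun n => (ha n).trans (hab n))
    rw [← toReal_enorm, ← toReal_enorm, ← h1, ← h2]
    refine ENNReal.toReal_mono (by rw [h2]; exact enorm_ne_top) (TestFam.nrm_mono fun n => ?_)
    rw [← ofReal_norm, ← ofReal_norm, Real.norm_eq_abs, Real.norm_eq_abs, abs_of_nonneg (ha n),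
      abs_of_nonneg ((ha n).trans (hab n))]
    exact ENNReal.ofReal_le_ofReal (hab n)

lemma isSum_of_isTStarTStar {es : ℕ → StrongDual ℝ T} (hes : Biorthogonal e es)
    (Y : Type) [NormedAddCommGroup Y] [NormedSpace ℝ Y]
    (Θ : Y →ₗ[ℝ] (ℕ → StrongDual ℝ T)) (hY : IsTStarTStar e Y Θ) : IsSum es Θ where
  injective := hY.injective
  fin x := by
    have h1 : ∀ k, (Finsupp.linearCombination ℝ es (x.mapRange (fun z => ‖z‖) norm_zero)) (e k) =
        ‖x k‖ := fun k => by rw [lc_es hes, Finsupp.mapRange_apply]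
    obtain ⟨y, hy⟩ := (hY.range_iff (fun n => x n)).2 ⟨_, h1⟩
    refine ⟨y, hy, hY.norm_eq y _ fun k => ?_⟩
    rw [h1 k, hy]

end Tstar

/-! ### The space `W` -/

/-- the unit vectors of `W` -/
noncomputable def wv (n : ℕ) : W := finTo famM (Finsupp.single n 1)

lemma lc_wv (a : ℕ →₀ ℝ) : Finsupp.linearCombination ℝ wv a = finTo famM a := by
  have h1 : Finsupp.linearCombination ℝ wv = finTo famM := by
    refine Finsupp.lhom_ext' fun n => LinearMap.ext_ring ?_
    simp [wv]
  rw [h1]

lemma norm_finTo (a : ℕ →₀ ℝ) : ‖finTo famM a‖ = (famM.nrm (fun n => ‖a n‖ₑ)).toReal := by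
  rw [KSum.norm_def]; rfl

lemma famM_fin (a : ℕ →₀ ℝ) : famM.nrm (fun n => ‖a n‖ₑ) ≠ ∞ := (finTo famM a).prop

lemma famM_lc (a : ℕ →₀ ℝ) :
    famM.nrm (fun n => ‖a n‖ₑ) = ENNReal.ofReal ‖Finsupp.linearCombination ℝ wv a‖ := by
  rw [lc_wv, norm_finTo, ENNReal.ofReal_toReal (famM_fin a)]

lemma isMonoSeq_wv : IsMonoSeq wv where
  norm_one n := by
    have e1 : (fun i => ‖(Finsupp.single n 1 : ℕ →₀ ℝ) i‖ₑ) = Pi.single n 1 := by
      funext i
      by_cases hi : i = n
      · subst hi; simp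
      · simp [Finsupp.single_apply, hi, Ne.symm hi]
    have h2 : famM.nrm (Pi.single n 1) = 1 :=
      le_antisymm (TestFam.nrm_single_le n 1) (by
        have := TestFam.apply_le_nrm (𝓑 := famM) (Pi.single n 1) n
        simpa using this)
    show ‖finTo famM (Finsupp.single n 1)‖ = 1
    rw [norm_finTo, e1, h2, ENNReal.toReal_one]
  mono a b ha hab := by
    rw [lc_wv, lc_wv, norm_finTo, norm_finTo]
    refine ENNReal.toReal_mono (famM_fin b) (TestFam.nrm_mono fun n => ?_)
    rw [← ofReal_norm, ← ofReal_norm, Real.norm_eq_abs, Real.norm_eq_abs, abs_of_nonneg (ha n),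
      abs_of_nonneg ((ha n).trans (hab n))]
    exact ENNReal.ofReal_le_ofReal (hab n)

lemma isC0Seq_wv : IsC0Seq 2 wv := by
  refine isC0Seq_of (by norm_num) WM ?_ le_WM (fun a => ?_)
  · have : ENNReal.ofReal 2 = 2 := by simp
    rw [this]
    exact UpC.of_upNorm upNorm_WM
  · rw [← ofReal_norm, ← famM_lc]
    rfl

lemma isSum_X : ∃ Θ : X →ₗ[ℝ] (ℕ → W), IsSum wv Θ :=
  isSum_KSum famM W fun a _ => famM_lc a

end Pool.Agent.Y737.HE
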